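import Pool.Agent.Q269.DX.St

/-!
# DX-ADJ: the operators of all the families generate everything
-/

set_option autoImplicit false
set_option linter.all false

open scoped Classical
open Finset Polynomial Module

namespace Pool.Agent.Q26.DX

open Pool.Agent.Q269.DX Pool.Agent.Q269.DX.JQ
open Pool.Agent.Y164.HG (Dat Symp om om_add_left om_add_right om_smul_left om_smul_right om_comm EW Geo Del Tau QQ
  E2v e2 om_def om_E2v const_zero)

theorem z2_add_self (a : ZMod 2) : a + a = 0 := by
  revert a; decide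

theorem E2v_apply {n : ℕ} (i j l : Fin n) : (E2v i j : EW n).1 l =
    (if l = i then 1 else 0) + (if l = j then 1 else 0) := by
  show e2 i j l = _
  unfold e2
  congr 1
  · by_cases h : i = l
    · rw [if_pos h, if_pos h.symm]
    · rw [if_neg h, if_neg (Ne.symm h)]
  · by_cases h : j = l
    · rw [if_pos h, if_pos h.symm]
    · rw [if_neg h, if_neg (Ne.symm h)]

section rank

variable {n : ℕ} [hodd : Fact (Odd n)]

theorem om_E2v' (i j : Fin n) (x : EW n) : om (E2v i j) x = x.1 i + x.1 j := by
  rw [om_comm, om_E2v]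

/-- the rank one operator -/
noncomputable def rk (v w : EW n) : Module.End (ZMod 2) (EW n) :=
  LinearMap.smulRight (omL w) v

theorem rk_apply (v w x : EW n) : rk v w x = om w x • v := rfl

theorem rk_mul (v w v' w' : EW n) : rk v w * rk v' w' = om w v' • rk v w' := by
  refine LinearMap.ext fun x => ?_
  rw [Module.End.mul_apply, rk_apply, rk_apply, om_smul_right, LinearMap.smul_apply,
    rk_apply, smul_smul, mul_comm]

theorem rk_sum_left {ι : Type} (s : Finset ι) (a : ι → ZMod 2) (v : ι → EW n) (w : EW n) :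
    rk (∑ l ∈ s, a l • v l) w = ∑ l ∈ s, a l • rk (v l) w := by
  refine LinearMap.ext fun x => ?_
  rw [rk_apply, LinearMap.sum_apply, smul_sum]
  refine sum_congr rfl fun l _ => ?_
  rw [LinearMap.smul_apply, rk_apply, smul_comm]

theorem rk_sum_right {ι : Type} (s : Finset ι) (a : ι → ZMod 2) (v : EW n) (w : ι → EW n) :
    rk v (∑ l ∈ s, a l • w l) = ∑ l ∈ s, a l • rk v (w l) := by
  refine LinearMap.ext fun x => ?_
  have h : om (∑ l ∈ s, a l • w l) x = ∑ l ∈ s, a l * om (w l) x := by
    have h1 : omL (∑ l ∈ s, a l • w l) x = ∑ l ∈ s, a l * omL (w l) x := by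
      rw [map_sum, LinearMap.sum_apply]
      refine sum_congr rfl fun l _ => ?_
      rw [map_smul, LinearMap.smul_apply, smul_eq_mul]
    exact h1
  rw [rk_apply, h, LinearMap.sum_apply, sum_smul]
  refine sum_congr rfl fun l _ => ?_
  rw [LinearMap.smul_apply, rk_apply, smul_smul]

theorem rk_zero_left (w : EW n) : rk 0 w = 0 := by
  refine LinearMap.ext fun x => ?_
  rw [rk_apply, smul_zero, LinearMap.zero_apply]

theorem rk_zero_right (v : EW n) : rk v 0 = 0 := by
  refine LinearMap.ext fun x => ?_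
  rw [rk_apply, Pool.Agent.Y164.HG.om_zero_left, zero_smul, LinearMap.zero_apply]

omit hodd in
/-- the expansion of a vector -/
theorem expand (j : Fin n) (x : EW n) : x = ∑ l, x.1 l • (E2v l j : EW n) := by
  refine Subtype.ext ?_
  rw [Submodule.coe_sum]
  funext i
  rw [Finset.sum_apply]
  have h : ∀ l : Fin n, ((x.1 l • (E2v l j : EW n) : EW n) : Fin n → ZMod 2) i =
      x.1 l * ((if i = l then 1 else 0) + (if i = j then 1 else 0)) := by
    intro l
    rw [Submodule.coe_smul, Pi.smul_apply, smul_eq_mul, E2v_apply]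
  rw [sum_congr rfl fun l _ => h l]
  simp only [mul_add, sum_add_distrib, mul_ite, mul_one, mul_zero, Finset.sum_ite_eq, mem_univ, if_true]
  by_cases h : i = j
  · simp only [if_pos h]
    rw [EW.sum, add_zero]
  · simp only [if_neg h, sum_const_zero, add_zero]

/-- a subspace closed under multiplication which contains the `rk (E2v i j) (E2v i j)` is everything -/
theorem all_mem (B : Submodule (ZMod 2) (Module.End (ZMod 2) (EW n)))
    (hmul : ∀ f ∈ B, ∀ g ∈ B, f * g ∈ B)
    (hB : ∀ i j : Fin n, i ≠ j → rk (E2v i j) (E2v i j) ∈ B) (f : Module.End (ZMod 2) (EW n)) :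
    f ∈ B := by
  have hself : ∀ i : Fin n, (E2v i i : EW n) = 0 := by
    intro i
    refine Subtype.ext (funext fun l => ?_)
    rw [E2v_apply]
    exact z2_add_self _
  have h1 : ∀ i j : Fin n, ∀ w : EW n, rk (E2v i j) w ∈ B := by
    intro i j w
    by_cases hij : i = j
    · subst hij
      rw [hself, rk_zero_left]
      exact B.zero_mem
    rw [expand j w, rk_sum_right]
    refine B.sum_mem fun l _ => B.smul_mem _ ?_
    by_cases hlj : l = j
    · subst hlj
      rw [hself, rk_zero_right]
      exact B.zero_mem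
    by_cases hli : l = i
    · subst hli
      exact hB l j hij
    have h2 := hmul _ (hB i j hij) _ (hB l j hlj)
    rw [rk_mul, om_E2v', E2v_apply, E2v_apply, if_neg (Ne.symm hli), if_neg hij, if_neg (Ne.symm hlj),
      if_pos rfl, add_zero, zero_add, zero_add, one_smul] at h2
    exact h2
  have hn0 : n ≠ 0 := by
    rintro rfl
    exact absurd hodd.out (by decide)
  have : NeZero n := ⟨hn0⟩
  have h2 : ∀ v w : EW n, rk v w ∈ B := by
    intro v w
    rw [expand (0 : Fin n) v, rk_sum_left]
    exact B.sum_mem fun l _ => B.smul_mem _ (h1 _ _ _)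
  have hn : ((n : ℕ) : ZMod 2) = 1 := Pool.Agent.Y164.HG.odd_cast hodd.out
  -- the dual vectors
  have h3 : ∀ l : Fin n, ∃ w : EW n, ∀ x : EW n, om w x = x.1 l := by
    intro l
    refine ⟨⟨fun i => if i = l then 0 else 1, ?_⟩, fun x => ?_⟩
    · show ∑ i, (if i = l then (0 : ZMod 2) else 1) = 0
      have h4 : ∀ i : Fin n, (if i = l then (0 : ZMod 2) else 1) = 1 + if i = l then 1 else 0 := by
        intro i
        by_cases h5 : i = l
        · rw [if_pos h5, if_pos h5]
          decide
        · rw [if_neg h5, if_neg h5]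
          decide
      rw [sum_congr rfl fun i _ => h4 i, sum_add_distrib, Finset.sum_ite_eq' univ l fun _ => 1,
        if_pos (mem_univ _), sum_const, card_univ, Fintype.card_fin, nsmul_eq_mul, hn]
      decide
    · rw [om_def]
      have h4 : ∀ i : Fin n, (if i = l then (0 : ZMod 2) else 1) * x.1 i =
          x.1 i + if i = l then x.1 i else 0 := by
        intro i
        by_cases h5 : i = l
        · rw [if_pos h5, if_pos h5, zero_mul, z2_add_self]
        · rw [if_neg h5, if_neg h5, one_mul, add_zero]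
      show ∑ i, (if i = l then (0 : ZMod 2) else 1) * x.1 i = x.1 l
      rw [sum_congr rfl fun i _ => h4 i, sum_add_distrib, EW.sum, zero_add,
        Finset.sum_ite_eq' univ l fun i => x.1 i, if_pos (mem_univ _)]
  choose w hw using h3
  have h4 : f = ∑ l, rk (f (E2v l 0)) (w l) := by
    refine LinearMap.ext fun x => ?_
    rw [LinearMap.sum_apply]
    conv_lhs => rw [expand (0 : Fin n) x]
    rw [map_sum]
    refine sum_congr rfl fun l _ => ?_
    rw [map_smul, rk_apply, hw]
  rw [h4]
  exact B.sum_mem fun l _ => h2 _ _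

end rank

theorem t_ADJ : S_ADJ := by
  intro k _ _ R _ n a N H hn σ
  set A : Subalgebra (ZMod 2) (∀ r, Module.End (ZMod 2) (EW (n r))) :=
    Algebra.adjoin (ZMod 2) (Set.range fun φ : Option (TQ a) → ZMod 2 =>
      (fun r => (DJ ((H r).dat (σ r)) (fun s => (⟨r, s⟩ : TQ a))).T φ : ∀ r, Module.End (ZMod 2) (EW (n r)))) with hA
  show A = ⊤
  have hgen : ∀ φ : Option (TQ a) → ZMod 2, (fun r => (DJ ((H r).dat (σ r)) (fun s => (⟨r, s⟩ : TQ a))).T φ :
      ∀ r, Module.End (ZMod 2) (EW (n r))) ∈ A := fun φ => Algebra.subset_adjoin ⟨φ, rfl⟩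
  -- the rank one operators
  have h1 : ∀ (r₀ : R) (s : Tau (a r₀)),
      (Pi.single r₀ (rk (((H r₀).dat (σ r₀)).t s) (((H r₀).dat (σ r₀)).t s)) :
        ∀ r, Module.End (ZMod 2) (EW (n r))) ∈ A := by
    intro r₀ s
    have h4 : (Pi.single r₀ (rk (((H r₀).dat (σ r₀)).t s) (((H r₀).dat (σ r₀)).t s)) :
        ∀ r, Module.End (ZMod 2) (EW (n r))) =
        fun r => (DJ ((H r).dat (σ r)) (fun s => (⟨r, s⟩ : TQ a))).T (Pi.single (some (⟨r₀, s⟩ : TQ a)) 1) := by
      funext r
      refine LinearMap.ext fun x => ?_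
      show _ = (Pi.single (some (⟨r₀, s⟩ : TQ a)) 1 : Option (TQ a) → ZMod 2) none • ((H r).dat (σ r)).ks x +
        ∑ s', (Pi.single (some (⟨r₀, s⟩ : TQ a)) 1 : Option (TQ a) → ZMod 2) (some ⟨r, s'⟩) •
          (om x (((H r).dat (σ r)).t s') • ((H r).dat (σ r)).t s')
      have h0 : (Pi.single (some (⟨r₀, s⟩ : TQ a)) 1 : Option (TQ a) → ZMod 2) none = 0 :=
        Pi.single_eq_of_ne (by simp) _
      rw [h0, zero_smul, zero_add]
      by_cases hr : r = r₀
      · subst hr
        rw [Pi.single_eq_same, Finset.sum_eq_single s]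
        · rw [Pi.single_eq_same, one_smul, rk_apply, om_comm]
        · intro s' _ hs
          rw [Pi.single_eq_of_ne, zero_smul]
          intro h5
          exact hs (eq_of_heq (Sigma.mk.inj (Option.some.inj h5)).2)
        · intro h6
          exact absurd (mem_univ _) h6
      · rw [Pi.single_eq_of_ne hr, LinearMap.zero_apply]
        symm
        refine Finset.sum_eq_zero fun s' _ => ?_
        rw [Pi.single_eq_of_ne, zero_smul]
        intro h5
        exact hr (Sigma.mk.inj (Option.some.inj h5)).1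
    rw [h4]
    exact hgen _
  -- all the pairs occur
  have hex : ∀ (r₀ : R) (i j : Fin (n r₀)), i ≠ j → ∃ s : Tau (a r₀),
      ((H r₀).p s = i ∧ (H r₀).q s = j) ∨ ((H r₀).p s = j ∧ (H r₀).q s = i) := by
    intro r₀ i j hij
    have h0 := (H r₀).ne hij
    have hnu : ¬ IsUnit (a r₀ i - a r₀ j) := by
      intro h
      have h1 := natDegree_eq_zero_of_isUnit h
      rw [(H r₀).hdeg i j hij] at h1
      have := (H r₀).hN
      omega
    obtain ⟨π, hπ, hd⟩ := WfDvdMonoid.exists_irreducible_factor hnu h0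
    have hp0 : π.leadingCoeff ≠ 0 := leadingCoeff_ne_zero.2 hπ.ne_zero
    have hass : Associated π (π * C π.leadingCoeff⁻¹) :=
      ⟨(isUnit_C.2 (IsUnit.mk0 _ (inv_ne_zero hp0))).unit, rfl⟩
    have hmem : π * C π.leadingCoeff⁻¹ ∈ Pool.Agent.Y164.HG.bpF (a r₀) := by
      rw [(H r₀).mem]
      exact ⟨monic_mul_leadingCoeff_inv hπ.ne_zero, hass.irreducible hπ,
        (hass.symm.dvd).trans (hd.trans ((H r₀).dvd_del hij))⟩
    exact ⟨⟨_, hmem⟩, ((H r₀).dvd_iff ⟨_, hmem⟩ hij).1 (hass.symm.dvd.trans hd)⟩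
  -- everything
  have h5 : ∀ (r₀ : R) (f : Module.End (ZMod 2) (EW (n r₀))),
      (Pi.single r₀ f : ∀ r, Module.End (ZMod 2) (EW (n r))) ∈ A := by
    intro r₀ f
    refine all_mem ((Subalgebra.toSubmodule A).comap (LinearMap.single (ZMod 2)
      (fun r => Module.End (ZMod 2) (EW (n r))) r₀)) ?_ ?_ f
    · intro f hf g hg
      have h6 := A.mul_mem hf hg
      rw [LinearMap.single_apply, LinearMap.single_apply, ← Pi.single_mul] at h6
      exact h6
    · intro i j hij
      obtain ⟨s, hs⟩ := hex r₀ i j hij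
      have h6 : ((H r₀).dat (σ r₀)).t s = E2v i j := by
        show (E2v ((H r₀).p s) ((H r₀).q s) : EW (n r₀)) = E2v i j
        rcases hs with ⟨h7, h8⟩ | ⟨h7, h8⟩
        · rw [h7, h8]
        · rw [h7, h8]
          exact Subtype.ext (funext fun l => add_comm _ _)
      have h7 := h1 r₀ s
      rw [h6] at h7
      exact h7
  refine eq_top_iff.2 fun F _ => ?_
  have : Fintype R := Fintype.ofFinite R
  rw [← Finset.univ_sum_single F]
  exact A.sum_mem fun r _ => h5 r (F r)

end Pool.Agent.Q26.DX
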